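import Pool.Agent.Helper894.FS.Sub

/-!
# Local shifts and minimal subsystems: statements of the pieces
-/

set_option autoImplicit false

namespace Pool.Agent.E8helper92.FS

open Pool.Agent.Helper894.FS

/-- the word `w` occurs in `x` at the position `k` -/
def At {A : Type} {n : ℕ} (w : Fin n → A) (x : ℤ → A) (k : ℤ) : Prop :=
  ∀ i : Fin n, x (k + ((i : ℕ) : ℤ)) = w i

/-- every point of the subshift contains a word of `W` -/
def Hits {A : Type} (F : Set (List A)) (n : ℕ) (W : Finset (Fin n → A)) : Prop :=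
  ∀ x ∈ SF F, ∃ w ∈ W, ∃ k : ℤ, At w x k

/-- `M` is closed in the product of discrete spaces -/
def Cl {A : Type} (M : Set (ℤ → A)) : Prop :=
  @IsClosed (ℤ → A) (@Pi.topologicalSpace ℤ (fun _ => A) fun _ => ⊥) M

/-- `M` is nonempty, closed and invariant under the shift -/
def IsSub {A : Type} (M : Set (ℤ → A)) : Prop :=
  M.Nonempty ∧ Cl M ∧ ∀ (k : ℤ), ∀ x ∈ M, sh k x ∈ M

/-- `M` is a minimal subsystem of the subshift -/
def IsMinSub {A : Type} (F : Set (List A)) (M : Set (ℤ → A)) : Prop :=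
  IsSub M ∧ M ⊆ SF F ∧ ∀ M' ⊆ M, IsSub M' → M' = M

/-- bounded gaps (compactness) -/
def S_GAP : Prop := ∀ (A : Type) (_ : Finite A) (F : Set (List A)) (n : ℕ)
  (W : Finset (Fin n → A)), Hits F n W →
    ∃ G : ℕ, ∀ x ∈ SF F, ∃ w ∈ W, ∃ k : ℤ, |k| ≤ (G : ℤ) ∧ At w x k

/-- permutations with barriers of bounded gaps have finite order -/
def S_PER : Prop := ∀ G R : ℕ, ∃ M : ℕ, 0 < M ∧ ∀ g : Equiv.Perm ℤ, (∀ q, |g q - q| ≤ (R : ℤ)) →
  (∀ q : ℤ, ∃ c : ℤ, |c - q| ≤ (G : ℤ) ∧ ∀ p : ℤ, |p| ≤ (R : ℤ) → g (c + p) = c + p) → g ^ M = 1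

/-- every point contains all words of some minimal subsystem -/
def S_MIN : Prop := ∀ (A : Type) (_ : Finite A) (F : Set (List A)), ∀ x ∈ SF F,
  ∃ M : Set (ℤ → A), IsMinSub F M ∧
    ∀ y ∈ M, ∀ (k : ℤ) (n : ℕ), ∃ j : ℤ, ∀ i : ℕ, i < n → x (j + i) = y (k + i)

end Pool.Agent.E8helper92.FS
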