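import Pool.Agent.Helper894.FS.Union2
import Pool.Agent.E8helper92.FS.Stm

/-!
# Local shifts and minimal subsystems: the union bound and barriers
-/

set_option autoImplicit false

namespace Pool.Agent.E8helper92.FS

open Pool.Agent.Helper894.FS
open scoped BigOperators

/-- a nontrivial element which fixes finitely many given points -/
theorem exists_fix {Ω : Type} (φ : F2 →* Equiv.Perm Ω) (l : ℕ) (α : ℝ) (hlaw : HasLaw φ l α)
    (P : Finset Ω) (hP : (P.card : ℝ) * α < 1) :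
    ∃ g : F2, g ≠ 1 ∧ g.norm ≤ l ∧ ∀ ω ∈ P, φ g ω = ω := by
  classical
  obtain ⟨ι, _, w, g, hw0, hw1, hg1, hgl, hα⟩ := hlaw
  by_contra hcon
  push Not at hcon
  have hex : ∀ i, ∃ ω ∈ P, φ (g i) ω ≠ ω := fun i => hcon (g i) (hg1 i) (hgl i)
  have h1 : ∑ ω ∈ P, ∑ i, w i * Set.indicator {ω' | φ (g i) ω' ≠ ω'} (fun _ => (1 : ℝ)) ω ≤
      P.card * α := by
    have := Finset.sum_le_card_nsmul P
      (fun ω => ∑ i, w i * Set.indicator {ω' | φ (g i) ω' ≠ ω'} (fun _ => (1 : ℝ)) ω) α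
      (fun ω _ => hα ω)
    rwa [nsmul_eq_mul] at this
  rw [Finset.sum_comm] at h1
  have h2 : ∑ i, w i ≤ ∑ i, ∑ ω ∈ P, w i *
      Set.indicator {ω' | φ (g i) ω' ≠ ω'} (fun _ => (1 : ℝ)) ω := by
    apply Finset.sum_le_sum
    intro i _
    obtain ⟨ω, hω, hm⟩ := hex i
    have h3 : w i = w i * Set.indicator {ω' | φ (g i) ω' ≠ ω'} (fun _ => (1 : ℝ)) ω := by
      rw [Set.indicator_of_mem, mul_one]
      exact hm
    calc w i = _ := h3
      _ ≤ _ := Finset.single_le_sum (f := fun ω => w i *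
          Set.indicator {ω' | φ (g i) ω' ≠ ω'} (fun _ => (1 : ℝ)) ω)
          (fun v _ => mul_nonneg (hw0 i) (Set.indicator_nonneg (fun _ _ => zero_le_one) _)) hω
  rw [hw1] at h2
  linarith

variable {A : Type} {S : Set (ℤ → A)}

theorem shS_shS (hS : ∀ (k : ℤ), ∀ x ∈ S, sh k x ∈ S) (j k : ℤ) (x : S) :
    shS hS j (shS hS k x) = shS hS (j + k) x :=
  Subtype.ext (sh_sh j k x.1)

/-- the line of a shifted point -/
theorem lineHom_shS (hS : ∀ (k : ℤ), ∀ x ∈ S, sh k x ∈ S) (a : Bool → Equiv.Perm S)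
    (c : Bool → S → ℤ) (hc : ∀ b x, (a b x : ℤ → A) = sh (c b x) x.1) (g : F2) (x : S) (k : ℤ) :
    ∀ n : ℤ, lineHom hS a c hc (shS hS k x) g n = lineHom hS a c hc x g (n + k) - k := by
  have hof : ∀ (b : Bool) (n : ℤ), lineHom hS a c hc (shS hS k x) (FreeGroup.of b) n =
      lineHom hS a c hc x (FreeGroup.of b) (n + k) - k := by
    intro b n
    rw [lineHom_of, lineHom_of, shS_shS]
    ring
  induction g using FreeGroup.induction_on with
  | C1 => intro n; simp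
  | of b => exact hof b
  | inv_of b _ =>
    intro n
    rw [map_inv, map_inv, Equiv.Perm.inv_eq_iff_eq, hof, sub_add_cancel]
    simp
  | mul g h hg hh =>
    intro n
    rw [map_mul, map_mul, Equiv.Perm.mul_apply, Equiv.Perm.mul_apply, hh, hg, sub_add_cancel]

/-- displacement of an element of norm at most `l` -/
theorem line_disp (hS : ∀ (k : ℤ), ∀ x ∈ S, sh k x ∈ S) (a : Bool → Equiv.Perm S)
    (c : Bool → S → ℤ) (hc : ∀ b x, (a b x : ℤ → A) = sh (c b x) x.1) (r κ : ℕ)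
    (hr : ∀ b x, |c b x| ≤ r)
    (hκ : ∀ b (x y : S), (∀ i : ℤ, |i| ≤ κ → x.1 i = y.1 i) → c b x = c b y)
    (x : S) (l : ℕ) (g : F2) (hg : g.norm ≤ l) (n : ℤ) :
    |lineHom hS a c hc x g n - n| ≤ ((l * r : ℕ) : ℤ) := by
  have h := (local_mk hS a c hc r κ hr hκ x x n g.toWord (fun _ _ => rfl)).2
  rw [FreeGroup.mk_toWord] at h
  refine h.trans ?_
  have h1 : g.toWord.length ≤ l := hg
  exact_mod_cast Nat.mul_le_mul_right r h1

/-- locality at an arbitrary point of the line -/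
theorem line_local (hS : ∀ (k : ℤ), ∀ x ∈ S, sh k x ∈ S) (a : Bool → Equiv.Perm S)
    (c : Bool → S → ℤ) (hc : ∀ b x, (a b x : ℤ → A) = sh (c b x) x.1) (r κ : ℕ)
    (hr : ∀ b x, |c b x| ≤ r)
    (hκ : ∀ b (x y : S), (∀ i : ℤ, |i| ≤ κ → x.1 i = y.1 i) → c b x = c b y)
    (x y : S) (l : ℕ) (g : F2) (hg : g.norm ≤ l) (n : ℤ)
    (hxy : ∀ i : ℤ, |i - n| ≤ l * r + κ → x.1 i = y.1 i) :
    lineHom hS a c hc x g n = lineHom hS a c hc y g n := by
  have h := (local_mk hS a c hc r κ hr hκ x y n g.toWord (fun i hi => hxy i (by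
    have h1 : ((g.toWord.length : ℕ) : ℤ) ≤ l := by exact_mod_cast hg
    have h2 : ((g.toWord.length : ℕ) : ℤ) * r ≤ l * r :=
      mul_le_mul_of_nonneg_right h1 (Int.natCast_nonneg r)
    linarith))).1
  rwa [FreeGroup.mk_toWord] at h

/-- representatives of the words of `W` -/
theorem exists_rep (F : Set (List A)) (Q : ℕ) (x₀ : SF F) (w : Fin (2 * Q + 1) → A) :
    ∃ y : SF F, (∃ x ∈ SF F, ∃ k : ℤ, At w x k) → At w y.1 (-(Q : ℤ)) := by
  by_cases h : ∃ x ∈ SF F, ∃ k : ℤ, At w x k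
  · obtain ⟨x, hx, k, hk⟩ := h
    refine ⟨⟨sh (k + Q) x, sh_mem _ hx⟩, fun _ i => ?_⟩
    have := hk i
    show x (-(Q : ℤ) + ((i : ℕ) : ℤ) + (k + Q)) = w i
    rw [← this]
    congr 1
    ring
  · exact ⟨x₀, fun h' => absurd h' h⟩

/-- a nontrivial element which fixes the points near the origin of finitely many lines -/
theorem exists_fix_lines {I : Type} (r : ℕ) (W : Finset I) (Λ : I → LA r) (l : ℕ) (α : ℝ)
    (hα : 0 ≤ α) (hlaw : HasLaw (univAct r) l α) (R : ℕ)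
    (hN : ((W.card * (2 * R + 1) : ℕ) : ℝ) * α < 1) :
    ∃ g : F2, g ≠ 1 ∧ g.norm ≤ l ∧ ∀ w ∈ W, ∀ p : ℤ, |p| ≤ (R : ℤ) → (Λ w).1 g p = p := by
  classical
  obtain ⟨P, hPdef⟩ : ∃ P : Finset (LA r × ℤ), P =
    (W ×ˢ Finset.Icc (-(R : ℤ)) (R : ℤ)).image fun p => (Λ p.1, p.2) := ⟨_, rfl⟩
  have hPc : P.card ≤ W.card * (2 * R + 1) := by
    rw [hPdef]
    refine Finset.card_image_le.trans ?_
    rw [Finset.card_product, Int.card_Icc]
    apply Nat.mul_le_mul_left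
    omega
  have hP : (P.card : ℝ) * α < 1 := by
    refine lt_of_le_of_lt (mul_le_mul_of_nonneg_right ?_ hα) hN
    exact_mod_cast hPc
  obtain ⟨g, hg1, hgl, hgP⟩ := exists_fix (univAct r) l α hlaw P hP
  refine ⟨g, hg1, hgl, fun w hw p hp => ?_⟩
  have h1 := hgP (Λ w, p) (by
    rw [hPdef]
    refine Finset.mem_image.mpr ⟨(w, p), ?_, rfl⟩
    rw [Finset.mem_product, Finset.mem_Icc]
    rw [abs_le] at hp
    exact ⟨hw, hp⟩)
  exact congrArg Prod.snd h1

/-- an element which fixes the points near the origin of the line of `y` does so near every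
occurrence of the word of `y` -/
theorem fix_near (F : Set (List A)) (hS : ∀ (k : ℤ), ∀ x ∈ SF F, sh k x ∈ SF F)
    (a : Bool → Equiv.Perm (SF F))
    (c : Bool → SF F → ℤ) (hc : ∀ b x, (a b x : ℤ → A) = sh (c b x) x.1) (r κ : ℕ)
    (hr : ∀ b x, |c b x| ≤ r)
    (hκ : ∀ b (x y : SF F), (∀ i : ℤ, |i| ≤ κ → x.1 i = y.1 i) → c b x = c b y)
    (l R Q : ℕ) (hR : R = l * r) (hQ : Q = 2 * R + κ) (g : F2) (hgl : g.norm ≤ l)
    (w : Fin (2 * Q + 1) → A) (y : SF F) (hyw : At w y.1 (-(Q : ℤ)))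
    (hfix : ∀ p : ℤ, |p| ≤ (R : ℤ) → lineHom hS a c hc y g p = p)
    (x : SF F) (k : ℤ) (hat : At w x.1 k) (p : ℤ) (hp : |p| ≤ (R : ℤ)) :
    lineHom hS a c hc x g (k + Q + p) = k + Q + p := by
  have h1 : lineHom hS a c hc (shS hS (k + Q) x) g p = lineHom hS a c hc y g p := by
    apply line_local hS a c hc r κ hr hκ _ _ l g hgl p
    intro i hi
    have hi2 : |i| ≤ (Q : ℤ) := by
      have h5 : |i| ≤ |i - p| + |p| := by
        calc |i| = |(i - p) + p| := by ring_nf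
          _ ≤ _ := abs_add_le _ _
      have h6 : (R : ℤ) = (l : ℤ) * r := by rw [hR]; push_cast; ring
      have h7 : (Q : ℤ) = 2 * R + κ := by rw [hQ]; push_cast; ring
      rw [h7]
      linarith
    rw [abs_le] at hi2
    have hj : (i + Q).toNat < 2 * Q + 1 := by omega
    have h7 : (((i + Q).toNat : ℕ) : ℤ) = i + Q := by omega
    have h8 : y.1 (-(Q : ℤ) + (((i + Q).toNat : ℕ) : ℤ)) = w ⟨(i + Q).toNat, hj⟩ :=
      hyw ⟨(i + Q).toNat, hj⟩
    have h9 : x.1 (k + (((i + Q).toNat : ℕ) : ℤ)) = w ⟨(i + Q).toNat, hj⟩ :=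
      hat ⟨(i + Q).toNat, hj⟩
    rw [h7] at h8 h9
    have e1 : -(Q : ℤ) + (i + Q) = i := by ring
    rw [e1] at h8
    show x.1 (i + (k + Q)) = y.1 i
    rw [h8, ← h9]
    ring_nf
  rw [hfix p hp, lineHom_shS] at h1
  have e : k + (Q : ℤ) + p = p + (k + Q) := by ring
  rw [e]
  linarith

/-- **The main step.** -/
theorem union_hits [Finite A] (hgap : S_GAP) (hper : S_PER) (F : Set (List A))
    (a : Bool → Equiv.Perm (SF F))
    (c : Bool → SF F → ℤ) (hc : ∀ b x, (a b x : ℤ → A) = sh (c b x) x.1) (r κ : ℕ)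
    (hr : ∀ b x, |c b x| ≤ r)
    (hκ : ∀ b (x y : SF F), (∀ i : ℤ, |i| ≤ κ → x.1 i = y.1 i) → c b x = c b y)
    (l R Q : ℕ) (hR : R = l * r) (hQ : Q = 2 * R + κ)
    (α : ℝ) (hα : 0 ≤ α) (hlaw : HasLaw (univAct r) l α)
    (W : Finset (Fin (2 * Q + 1) → A)) (hW : Hits F _ W)
    (hN : ((W.card * (2 * R + 1) : ℕ) : ℝ) * α < 1) :
    ∃ (g : F2) (M : ℕ), g ≠ 1 ∧ 0 < M ∧ FreeGroup.lift a (g ^ M) = 1 := by
  have hS : ∀ (k : ℤ), ∀ x ∈ SF F, sh k x ∈ SF F := fun k x hx => sh_mem k hx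
  rcases isEmpty_or_nonempty (SF F) with hE | ⟨⟨x₀⟩⟩
  · exact ⟨FreeGroup.of true, 1, FreeGroup.of_ne_one true, one_pos, Equiv.ext fun x => hE.elim x⟩
  choose y hy using exists_rep F Q x₀
  obtain ⟨g, hg1, hgl, hfix⟩ := exists_fix_lines r W
    (fun w => (⟨lineHom hS a c hc (y w), lineHom_disp hS a c hc r hr (y w)⟩ : LA r))
    l α hα hlaw R hN
  obtain ⟨G, hG⟩ := hgap A inferInstance F _ W hW
  obtain ⟨M, hM, hMg⟩ := hper (G + Q) R
  refine ⟨g, M, hg1, hM, ?_⟩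
  have hline : ∀ x : SF F, lineHom hS a c hc x (g ^ M) = 1 := by
    intro x
    rw [map_pow]
    apply hMg
    · intro q
      rw [hR]
      exact line_disp hS a c hc r κ hr hκ x l g hgl q
    · intro q
      obtain ⟨w, hw, k, hk, hat⟩ := hG (sh q x.1) (hS q x.1 x.2)
      refine ⟨q + k + Q, ?_, ?_⟩
      · have e : q + k + (Q : ℤ) - q = k + Q := by ring
        rw [e]
        push_cast
        refine (abs_add_le _ _).trans ?_
        have : |(Q : ℤ)| = Q := abs_of_nonneg (Int.natCast_nonneg Q)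
        rw [this]
        linarith
      · intro p hp
        refine fix_near F hS a c hc r κ hr hκ l R Q hR hQ g hgl w (y w)
          (hy w ⟨sh q x.1, hS q x.1 x.2, k, hat⟩) (hfix w hw) x (q + k) ?_ p hp
        intro i
        have := hat i
        show x.1 (q + k + ((i : ℕ) : ℤ)) = w i
        rw [← this]
        show x.1 _ = x.1 _
        ring_nf
  apply Equiv.ext
  intro x
  have h := lift_shS hS a c hc (g ^ M) x 0
  have h0 : shS hS 0 x = x := Subtype.ext (sh_zero x.1)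
  rw [hline x, Equiv.Perm.one_apply, h0] at h
  rw [h]
  rfl

end Pool.Agent.E8helper92.FS
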