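import Pool.Agent.Helper894.FS.Final
import Pool.Agent.E8helper92.FS.Uni

/-!
# Local shifts and minimal subsystems: no free subgroups
-/

set_option autoImplicit false

namespace Pool.Agent.E8helper92.FS

open Pool.Agent.Helper894.FS
open scoped BigOperators

/-- the least number of words of length `n` which meet all points of the subshift -/
noncomputable def tau {A : Type} (F : Set (List A)) (n : ℕ) : ℕ :=
  sInf {m | ∃ W : Finset (Fin n → A), Hits F n W ∧ W.card = m}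

theorem tau_spec {A : Type} [Finite A] (F : Set (List A)) (n : ℕ) :
    ∃ W : Finset (Fin n → A), Hits F n W ∧ W.card = tau F n := by
  classical
  have : Fintype A := Fintype.ofFinite A
  have hne : {m | ∃ W : Finset (Fin n → A), Hits F n W ∧ W.card = m}.Nonempty :=
    ⟨_, Finset.univ, fun x _ => ⟨fun i => x (0 + ((i : ℕ) : ℤ)), Finset.mem_univ _, 0,
      fun _ => rfl⟩, rfl⟩
  exact Nat.sInf_mem hne

theorem tau_le {A : Type} (F : Set (List A)) (n : ℕ) (W : Finset (Fin n → A)) (hW : Hits F n W) :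
    tau F n ≤ W.card := Nat.sInf_le ⟨W, hW, rfl⟩

theorem tau_mono {A : Type} [Finite A] (F : Set (List A)) : Monotone (tau F) := by
  classical
  intro n m hnm
  obtain ⟨W, hW, hc⟩ := tau_spec F m
  rw [← hc]
  refine (tau_le F n (W.image fun w i => w (Fin.castLE hnm i)) ?_).trans Finset.card_image_le
  intro x hx
  obtain ⟨w, hw, k, hk⟩ := hW x hx
  exact ⟨_, Finset.mem_image_of_mem _ hw, k, fun i => hk (Fin.castLE hnm i)⟩

/-- the sequence for the numerical iteration -/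
noncomputable def seq {A : Type} (F : Set (List A)) (n : ℕ) : ℕ := tau F (2 * n) * n

theorem seq_mono {A : Type} [Finite A] (F : Set (List A)) : Monotone (seq F) := by
  intro n m hnm
  exact Nat.mul_le_mul (tau_mono F (by omega)) hnm

theorem seq_log {A : Type} [Finite A] (F : Set (List A))
    (h : ∀ ε : ℝ, 0 < ε → ∀ n₀ : ℕ, ∃ n ≥ n₀, ∃ W : Finset (Fin n → A), Hits F n W ∧
      Real.log W.card ≤ ε * Real.sqrt n) :
    ∀ ε : ℝ, 0 < ε → ∀ n₀ : ℕ, ∃ n ≥ n₀, Real.log (seq F n) ≤ ε * Real.sqrt n := by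
  intro ε hε n₀
  have hlog : ∀ᶠ n : ℕ in Filter.atTop, Real.log n ≤ ε / 2 * Real.sqrt n := by
    have h1 := (isLittleO_log_rpow_atTop (by norm_num : (0 : ℝ) < 1 / 2)).bound (half_pos hε)
    have h2 := (tendsto_natCast_atTop_atTop (R := ℝ)).eventually h1
    filter_upwards [h2, Filter.eventually_ge_atTop 1] with n hn hn1
    have h3 : Real.log n ≤ ‖Real.log (n : ℝ)‖ := le_abs_self _
    refine h3.trans (hn.trans (le_of_eq ?_))
    rw [Real.sqrt_eq_rpow, Real.norm_of_nonneg (Real.rpow_nonneg (Nat.cast_nonneg n) _)]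
  obtain ⟨n₁, hn₁⟩ := Filter.eventually_atTop.1 hlog
  obtain ⟨m, hm, W, hW, hWl⟩ := h (ε / 4) (by linarith) (2 * (n₀ + n₁ + 1))
  refine ⟨m / 2, by omega, ?_⟩
  have hm1 : 1 ≤ m / 2 := by omega
  have ht : tau F (2 * (m / 2)) ≤ W.card := (tau_mono F (by omega)).trans (tau_le F m W hW)
  have hsq : Real.sqrt m ≤ 2 * Real.sqrt ((m / 2 : ℕ) : ℝ) := by
    have h4 : (m : ℝ) ≤ 4 * ((m / 2 : ℕ) : ℝ) := by
      have : m ≤ 4 * (m / 2) := by omega
      exact_mod_cast this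
    calc Real.sqrt m ≤ Real.sqrt (4 * ((m / 2 : ℕ) : ℝ)) := Real.sqrt_le_sqrt h4
      _ = Real.sqrt 4 * Real.sqrt ((m / 2 : ℕ) : ℝ) := Real.sqrt_mul (by norm_num) _
      _ = 2 * Real.sqrt ((m / 2 : ℕ) : ℝ) := by
        rw [show (4 : ℝ) = 2 ^ 2 by norm_num, Real.sqrt_sq (by norm_num)]
  have hs0 := Real.sqrt_nonneg ((m / 2 : ℕ) : ℝ)
  rcases Nat.eq_zero_or_pos (tau F (2 * (m / 2))) with h0 | h0
  · rw [seq, h0, zero_mul, Nat.cast_zero, Real.log_zero]
    positivity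
  · rw [seq, Nat.cast_mul, Real.log_mul (by positivity) (by
      have : 0 < m / 2 := hm1
      positivity)]
    have h5 : Real.log (tau F (2 * (m / 2))) ≤ Real.log W.card :=
      Real.log_le_log (by exact_mod_cast h0) (by exact_mod_cast ht)
    have h6 := hn₁ (m / 2) (by omega)
    nlinarith

/-- **No free subgroups in the topological full group.** -/
theorem no_free_hits {A : Type} [Finite A] [TopologicalSpace A] [DiscreteTopology A]
    (hgap : S_GAP) (hper : S_PER) (F : Set (List A)) (hF : ∀ a : A, [a, a] ∈ F)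
    (h : ∀ ε : ℝ, 0 < ε → ∀ n₀ : ℕ, ∃ n ≥ n₀, ∃ W : Finset (Fin n → A), Hits F n W ∧
      Real.log W.card ≤ ε * Real.sqrt n)
    (f : F2 →* FullG F hF) : ¬ Function.Injective f := by
  intro hf
  choose r κ c hc hr hκ using fun b : Bool =>
    JG1.exists_cocycle F hF (f (FreeGroup.of b)).1 (f (FreeGroup.of b)).2
  obtain ⟨a, ha⟩ : ∃ a : Bool → Equiv.Perm (SF F),
    a = fun b => toPermHom _ (f (FreeGroup.of b)).1 := ⟨_, rfl⟩
  have hlift : FreeGroup.lift a = ((toPermHom (SF F)).comp (FullG F hF).subtype).comp f := by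
    apply FreeGroup.ext_hom
    intro b
    rw [FreeGroup.lift_apply_of, ha]
    rfl
  obtain ⟨r', hr'⟩ : ∃ r', r' = max (r true) (r false) := ⟨_, rfl⟩
  obtain ⟨κ', hκ'⟩ : ∃ κ', κ' = max (κ true) (κ false) := ⟨_, rfl⟩
  obtain ⟨l₀, hl₀⟩ := core r' (1 / 96) (by norm_num)
  obtain ⟨l, α, ⟨hα, hlaw⟩, hlt⟩ := JG4.iterate_law (seq F) (seq_mono F) (seq_log F h)
    (fun l α => 0 ≤ α ∧ HasLaw (univAct r') l α)
    (fun l α hα hl => ⟨by positivity, JB.law_step _ JA.twist l α hα hl.2⟩) l₀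
    ⟨by norm_num, hl₀⟩ r' κ'
  obtain ⟨R, hR⟩ : ∃ R, R = l * r' := ⟨_, rfl⟩
  obtain ⟨Q, hQ⟩ : ∃ Q, Q = 2 * R + κ' := ⟨_, rfl⟩
  obtain ⟨W, hW, hWc⟩ := tau_spec F (2 * Q + 1)
  have hN : ((W.card * (2 * R + 1) : ℕ) : ℝ) * α < 1 := by
    refine lt_of_le_of_lt (mul_le_mul_of_nonneg_right ?_ hα) hlt
    have h1 : W.card * (2 * R + 1) ≤ seq F (2 * (l * r' + κ') + 1) := by
      rw [hWc, seq, ← hR]
      exact Nat.mul_le_mul (tau_mono F (by omega)) (by omega)
    exact_mod_cast h1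
  obtain ⟨g, M, hg1, hM, hg2⟩ := union_hits hgap hper F a c
    (fun b x => by rw [ha]; exact hc b x) r' κ'
    (fun b x => (hr b x).trans (by rw [hr']; cases b <;> simp))
    (fun b x y hxy => hκ b x y (fun i hi => hxy i (hi.trans (by rw [hκ']; cases b <;> simp))))
    l R Q hR hQ α hα hlaw W hW hN
  refine JA.torsion_free g hg1 M hM.ne' ?_
  apply hf
  rw [map_one]
  rw [hlift] at hg2
  apply Subtype.ext
  have h3 : toPermHom (SF F) (f (g ^ M)).1 = 1 := hg2
  ext1 x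
  exact congrArg (fun p : Equiv.Perm (SF F) => p x) h3

/-- **No free subgroups**: the criterion for points. -/
theorem no_free_points {A : Type} [Finite A] (hgap : S_GAP) (hper : S_PER) (F : Set (List A))
    (hF : ∀ a : A, [a, a] ∈ F)
    (h : ∀ ε : ℝ, 0 < ε → ∀ n₀ : ℕ, ∃ n ≥ n₀, ∃ W : Finset (Fin n → A), Hits F n W ∧
      Real.log W.card ≤ ε * Real.sqrt n) : ¬ HasFree (FullSF F) ∧ ¬ HasFree (GSF F) := by
  have key : ¬ HasFree (FullSF F) := by
    rintro ⟨f, hf, hK⟩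
    let e : F2 ≃* FreeGroup (Fin 2) := FreeGroup.freeGroupCongr finTwoEquiv.symm
    have hK' : ∀ g, f g ∈
        (@FullG A ⊥ (@DiscreteTopology.mk A ⊥ rfl) F hF : Subgroup (HomeoSF F)) := by
      intro g
      rw [← FullSF_eq F hF]
      exact hK g
    let f' : FreeGroup (Fin 2) →*
        (@FullG A ⊥ (@DiscreteTopology.mk A ⊥ rfl) F hF : Subgroup (HomeoSF F)) :=
      MonoidHom.codRestrict f _ hK'
    have hf' : Function.Injective f' := by
      intro x y hxy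
      apply hf
      exact congrArg Subtype.val hxy
    exact @no_free_hits A _ ⊥ (@DiscreteTopology.mk A ⊥ rfl) hgap hper F hF h
      (f'.comp e.toMonoidHom)
      (show Function.Injective (f' ∘ e) from hf'.comp e.injective)
  refine ⟨key, ?_⟩
  rintro ⟨f, hf, hK⟩
  exact key ⟨f, hf, fun g => GSF_le_FullSF F hF (hK g)⟩

/-- the words of `W` meet all minimal subsystems -/
def MeetsMin {A : Type} (F : Set (List A)) (n : ℕ) (W : Finset (Fin n → A)) : Prop :=
  ∀ M, IsMinSub F M → ∃ w ∈ W, ∃ y ∈ M, ∃ k : ℤ, At w y k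

theorem hits_of_meetsMin {A : Type} [Finite A] (hmin : S_MIN) (F : Set (List A)) (n : ℕ)
    (W : Finset (Fin n → A)) (hW : MeetsMin F n W) : Hits F n W := by
  intro x hx
  obtain ⟨M, hM, hMx⟩ := hmin A inferInstance F x hx
  obtain ⟨w, hw, y, hy, k, hk⟩ := hW M hM
  obtain ⟨j, hj⟩ := hMx y hy k n
  exact ⟨w, hw, j, fun i => (hj i i.2).trans (hk i)⟩

/-- the number of the words of length `n` in minimal subsystems -/
noncomputable def numMinWords {A : Type} (F : Set (List A)) (n : ℕ) : ℕ :=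
  Nat.card {w : Fin n → A // ∃ M, IsMinSub F M ∧ ∃ y ∈ M, ∃ k : ℤ, At w y k}

theorem main {A : Type} [Finite A] (hgap : S_GAP) (hper : S_PER) (hmin : S_MIN)
    (F : Set (List A)) (hF : ∀ a : A, [a, a] ∈ F)
    (h : ∀ ε : ℝ, 0 < ε → ∀ n₀ : ℕ, ∃ n ≥ n₀, ∃ W : Finset (Fin n → A), MeetsMin F n W ∧
      Real.log W.card ≤ ε * Real.sqrt n) : ¬ HasFree (FullSF F) ∧ ¬ HasFree (GSF F) := by
  refine no_free_points hgap hper F hF fun ε hε n₀ => ?_
  obtain ⟨n, hn, W, hW, hl⟩ := h ε hε n₀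
  exact ⟨n, hn, W, hits_of_meetsMin hmin F n W hW, hl⟩

theorem main_words {A : Type} [Finite A] (hgap : S_GAP) (hper : S_PER) (hmin : S_MIN)
    (F : Set (List A)) (hF : ∀ a : A, [a, a] ∈ F)
    (h : ∀ ε : ℝ, 0 < ε → ∀ n₀ : ℕ, ∃ n ≥ n₀,
      Real.log (numMinWords F n) ≤ ε * Real.sqrt n) :
    ¬ HasFree (FullSF F) ∧ ¬ HasFree (GSF F) := by
  classical
  refine main hgap hper hmin F hF fun ε hε n₀ => ?_
  obtain ⟨n, hn, hl⟩ := h ε hε n₀
  have : Fintype A := Fintype.ofFinite A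
  refine ⟨n, hn, Finset.univ.filter fun w => ∃ M, IsMinSub F M ∧ ∃ y ∈ M, ∃ k : ℤ, At w y k,
    ?_, ?_⟩
  · intro M hM
    obtain ⟨y, hy⟩ := hM.1.1
    refine ⟨fun i => y (0 + ((i : ℕ) : ℤ)), ?_, y, hy, 0, fun _ => rfl⟩
    rw [Finset.mem_filter]
    exact ⟨Finset.mem_univ _, M, hM, y, hy, 0, fun _ => rfl⟩
  · rw [numMinWords, Nat.card_eq_fintype_card, Fintype.card_subtype] at hl
    exact hl

theorem main_finite {A : Type} [Finite A] (hgap : S_GAP) (hper : S_PER) (hmin : S_MIN)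
    (F : Set (List A)) (hF : ∀ a : A, [a, a] ∈ F) (h : {M | IsMinSub F M}.Finite) :
    ¬ HasFree (FullSF F) ∧ ¬ HasFree (GSF F) := by
  classical
  refine main hgap hper hmin F hF fun ε hε n₀ => ?_
  have hfin : Finite {M // IsMinSub F M} := h.to_subtype
  have : Fintype {M // IsMinSub F M} := Fintype.ofFinite _
  choose y hy using fun (M : {M // IsMinSub F M}) => M.2.1.1
  obtain ⟨q, hq⟩ : ∃ q, q = Fintype.card {M // IsMinSub F M} := ⟨_, rfl⟩
  obtain ⟨n₁, hn₁⟩ := exists_nat_ge ((Real.log q / ε) ^ 2)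
  refine ⟨max n₀ n₁, le_max_left _ _,
    Finset.univ.image fun (M : {M // IsMinSub F M}) i => y M (0 + ((i : ℕ) : ℤ)), ?_, ?_⟩
  · intro M hM
    exact ⟨_, Finset.mem_image_of_mem _ (Finset.mem_univ ⟨M, hM⟩), y ⟨M, hM⟩, hy ⟨M, hM⟩, 0,
      fun _ => rfl⟩
  · obtain ⟨p, hp⟩ : ∃ p, p = (Finset.univ.image fun (M : {M // IsMinSub F M})
        (i : Fin (max n₀ n₁)) => y M (0 + ((i : ℕ) : ℤ))).card := ⟨_, rfl⟩
    have hpq : p ≤ q := by
      rw [hp, hq]
      exact Finset.card_image_le.trans (le_of_eq Finset.card_univ)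
    rw [← hp]
    have h1 : Real.log p ≤ Real.log q := by
      rcases Nat.eq_zero_or_pos p with h0 | h0
      · rw [h0, Nat.cast_zero, Real.log_zero]
        exact Real.log_natCast_nonneg _
      · exact Real.log_le_log (by exact_mod_cast h0) (by exact_mod_cast hpq)
    refine h1.trans ?_
    have h2 : (Real.log q / ε) ^ 2 ≤ ((max n₀ n₁ : ℕ) : ℝ) :=
      hn₁.trans (by exact_mod_cast le_max_right n₀ n₁)
    have h3 := Real.le_sqrt_of_sq_le h2
    rw [div_le_iff₀ hε] at h3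
    linarith

end Pool.Agent.E8helper92.FS
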