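import Pool.Agent.E8helper92.FS.Stm

/-!
# Local shifts and transitive subsystems: statements of the pieces
-/

set_option autoImplicit false

namespace Pool.Agent.E8helper92.FS

open Pool.Agent.Helper894.FS

/-- invariance under the shift -/
def Inv {A : Type} (M : Set (ℤ → A)) : Prop := ∀ (k : ℤ), ∀ x ∈ M, sh k x ∈ M

/-- a closed invariant set is the subshift of the words which do not occur in it -/
def S_CLS : Prop := ∀ (A : Type) (_ : Finite A) (Y : Set (ℤ → A)), Cl Y → Inv Y →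
  SF {w : List A | ∀ x ∈ Y, ¬ Occurs w x} = Y

/-- Zorn's lemma for closed invariant sets which meet all sets of a family of closed sets -/
def S_ZOR : Prop := ∀ (A : Type) (_ : Finite A) (ι : Type) (D : ι → Set (ℤ → A)),
  (∀ i, Cl (D i)) → ∀ K : Set (ℤ → A), Cl K → Inv K → (∀ i, (K ∩ D i).Nonempty) →
    ∃ Y ⊆ K, Cl Y ∧ Inv Y ∧ (∀ i, (Y ∩ D i).Nonempty) ∧
      ∀ Y' ⊆ Y, Cl Y' → Inv Y' → (∀ i, (Y' ∩ D i).Nonempty) → Y' = Y

end Pool.Agent.E8helper92.FS
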