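import Pool.Agent.E8helper92.FS.Fin
import Pool.Agent.E8helper92.FS.Stm2
import Pool.Agent.E8helper52.FS.Min

/-!
# Local shifts: reduction to transitive subsystems with dense minimal subsystems
-/

set_option autoImplicit false

namespace Pool.Agent.E8helper92.FS

open Pool.Agent.Helper894.FS
open scoped BigOperators

/-- `M` is a minimal closed invariant set -/
def IsMin {A : Type} (M : Set (ℤ → A)) : Prop := IsSub M ∧ ∀ M' ⊆ M, IsSub M' → M' = M

/-- `Y` is not the union of two proper closed invariant subsets -/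
def Irred {A : Type} (Y : Set (ℤ → A)) : Prop :=
  ∀ Y₁ Y₂ : Set (ℤ → A), Cl Y₁ → Inv Y₁ → Cl Y₂ → Inv Y₂ → Y = Y₁ ∪ Y₂ → Y₁ = Y ∨ Y₂ = Y

/-- the minimal subsystems of `Y` are dense in `Y` -/
def DenseMin {A : Type} (Y : Set (ℤ → A)) : Prop :=
  ∀ Y' : Set (ℤ → A), Cl Y' → Inv Y' → (∀ M ⊆ Y, IsMin M → M ⊆ Y') → Y ⊆ Y'

/-- few words meet all minimal subsystems of `Y` -/
def FewWords {A : Type} (Y : Set (ℤ → A)) : Prop :=
  ∀ ε : ℝ, 0 < ε → ∀ n₀ : ℕ, ∃ n ≥ n₀, ∃ W : Finset (Fin n → A),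
    (∀ M ⊆ Y, IsMin M → ∃ w ∈ W, ∃ y ∈ M, ∃ k : ℤ, At w y k) ∧
      Real.log W.card ≤ ε * Real.sqrt n

variable {A : Type}

section

variable (F : Set (List A)) (hS : ∀ (k : ℤ), ∀ x ∈ SF F, sh k x ∈ SF F)
  (a : Bool → Equiv.Perm (SF F))
  (c : Bool → SF F → ℤ) (hc : ∀ b x, (a b x : ℤ → A) = sh (c b x) x.1) (r κ : ℕ)
  (hr : ∀ b x, |c b x| ≤ r)
  (hκ : ∀ b (x y : SF F), (∀ i : ℤ, |i| ≤ κ → x.1 i = y.1 i) → c b x = c b y)

/-- the points on whose line `g` moves the origin -/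
def Dset (g : F2) : Set (ℤ → A) := {x | ∃ h : x ∈ SF F, lineHom hS a c hc ⟨x, h⟩ g 0 ≠ 0}

include hr hκ in
theorem cl_Dset (g : F2) : Cl (Dset F hS a c hc g) := by
  letI : TopologicalSpace A := ⊥
  haveI : DiscreteTopology A := ⟨rfl⟩
  have key : IsClosed (Dset F hS a c hc g) := by
    rw [← isOpen_compl_iff, isOpen_iff_forall_mem_open]
    intro x hx
    by_cases hxF : x ∈ SF F
    · obtain ⟨R, hR⟩ : ∃ R : ℕ, R = g.norm * r + κ := ⟨_, rfl⟩
      refine ⟨{z | ∀ i : ℕ, i < 2 * R + 1 → z (-(R : ℤ) + i) = (fun j : ℕ => x (-(R : ℤ) + j)) i},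
        ?_, Pool.Agent.E8helper52.FS.isOpen_cyl _ _ _, fun i _ => rfl⟩
      rintro z hz ⟨hzF, hne⟩
      apply hne
      have h0 : lineHom hS a c hc ⟨x, hxF⟩ g 0 = 0 := by
        by_contra h
        exact hx ⟨hxF, h⟩
      refine Eq.trans ?_ h0
      apply line_local hS a c hc r κ hr hκ _ _ g.norm g le_rfl 0
      intro i hi
      have hi' : |i| ≤ (R : ℤ) := by
        rw [sub_zero] at hi
        rw [hR]
        push_cast
        exact hi
      rw [abs_le] at hi'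
      have h2 := hz (i + R).toNat (by omega)
      have h3 : (((i + R).toNat : ℕ) : ℤ) = i + R := by omega
      simp only [h3] at h2
      have e : -(R : ℤ) + (i + R) = i := by ring
      rw [e] at h2
      exact h2
    · exact ⟨(SF F)ᶜ, fun z hz hzD => hz hzD.1, (Pool.Agent.E8helper52.FS.isClosed_SF F).isOpen_compl,
        hxF⟩
  exact key

/-- an element which does not move the origins of the lines over an invariant set is trivial on these lines -/
theorem line_eq_one {Y : Set (ℤ → A)} (hYF : Y ⊆ SF F) (hY : Inv Y) (g : F2)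
    (h : ¬ (Y ∩ Dset F hS a c hc g).Nonempty) (x : SF F) (hx : x.1 ∈ Y) :
    lineHom hS a c hc x g = 1 := by
  apply Equiv.ext
  intro n
  have h1 : lineHom hS a c hc (shS hS n x) g 0 = 0 := by
    by_contra hne
    exact h ⟨sh n x.1, hY n _ hx, hS n x.1 x.2, hne⟩
  rw [lineHom_shS, zero_add] at h1
  rw [Equiv.Perm.one_apply]
  linarith

/-- an element with barriers in bounded gaps has finite order on the lines over an invariant set -/
theorem finite_order (hper : S_PER) (R l : ℕ) (hR : R = l * r) (g : F2) (hgl : g.norm ≤ l)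
    (hr : ∀ b x, |c b x| ≤ r)
    (hκ : ∀ b (x y : SF F), (∀ i : ℤ, |i| ≤ κ → x.1 i = y.1 i) → c b x = c b y)
    {Y : Set (ℤ → A)} (hYF : Y ⊆ SF F) (hY : Inv Y) (G : ℕ)
    (hG : ∀ x : SF F, x.1 ∈ Y → ∃ k : ℤ, |k| ≤ (G : ℤ) ∧ ∀ p : ℤ, |p| ≤ (R : ℤ) →
      lineHom hS a c hc (shS hS k x) g p = p) :
    ∃ M : ℕ, 0 < M ∧ ∀ x : SF F, x.1 ∈ Y → lineHom hS a c hc x (g ^ M) = 1 := by
  obtain ⟨M, hM, hMg⟩ := hper G R
  refine ⟨M, hM, fun x hx => ?_⟩
  rw [map_pow]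
  apply hMg
  · intro q
    rw [hR]
    exact line_disp hS a c hc r κ hr hκ x l g hgl q
  · intro q
    obtain ⟨k, hk, hfix⟩ := hG (shS hS q x) (hY q _ hx)
    refine ⟨k + q, ?_, fun p hp => ?_⟩
    · have e : k + q - q = k := by ring
      rw [e]
      exact hk
    · have h1 := hfix p hp
      rw [shS_shS, lineHom_shS] at h1
      have e : k + q + p = p + (k + q) := by ring
      rw [e]
      linarith

end

theorem isMin_iff (F : Set (List A)) (M : Set (ℤ → A)) : IsMinSub F M ↔ IsMin M ∧ M ⊆ SF F :=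
  ⟨fun h => ⟨⟨h.1, h.2.2⟩, h.2.1⟩, fun h => ⟨h.1.1, h.2, h.1.2⟩⟩

/-- **The main argument.** -/
theorem core_lines [Finite A] (hgap : S_GAP) (hper : S_PER) (hmin : S_MIN) (hcls : S_CLS)
    (hzor : S_ZOR) (F : Set (List A))
    (a : Bool → Equiv.Perm (SF F))
    (c : Bool → SF F → ℤ) (hc : ∀ b x, (a b x : ℤ → A) = sh (c b x) x.1) (r κ : ℕ)
    (hr : ∀ b x, |c b x| ≤ r)
    (hκ : ∀ b (x y : SF F), (∀ i : ℤ, |i| ≤ κ → x.1 i = y.1 i) → c b x = c b y)
    (H : ∀ Y ⊆ SF F, Cl Y → Inv Y → Irred Y → DenseMin Y → FewWords Y) :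
    ∃ g : F2, g ≠ 1 ∧ FreeGroup.lift a g = 1 := by
  classical
  have hS : ∀ (k : ℤ), ∀ x ∈ SF F, sh k x ∈ SF F := fun k x hx => sh_mem k hx
  by_contra hno
  have hclF : Cl (SF F) := by
    letI : TopologicalSpace A := ⊥
    haveI : DiscreteTopology A := ⟨rfl⟩
    exact Pool.Agent.E8helper52.FS.isClosed_SF F
  -- the minimal set over which the free group acts faithfully
  obtain ⟨Y, hYF, hYc, hYi, hYD, hYm⟩ := hzor A inferInstance {g : F2 // g ≠ 1}
    (fun g => Dset F hS a c hc g.1) (fun g => cl_Dset F hS a c hc r κ hr hκ g.1) (SF F) hclF hS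
    (by
      rintro ⟨g, hg⟩
      by_contra hemp
      apply hno
      refine ⟨g, hg, Equiv.ext fun x => ?_⟩
      have h1 := line_eq_one F hS a c hc (le_refl (SF F)) hS g hemp x x.2
      have h := lift_shS hS a c hc g x 0
      have h0 : shS hS 0 x = x := Subtype.ext (sh_zero x.1)
      rw [h1, Equiv.Perm.one_apply, h0] at h
      rw [h]
      rfl)
  have hYD' : ∀ g : F2, g ≠ 1 → ∃ x : SF F, x.1 ∈ Y ∧ lineHom hS a c hc x g 0 ≠ 0 := by
    intro g hg
    obtain ⟨x, hxY, hx, hne⟩ := hYD ⟨g, hg⟩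
    exact ⟨⟨x, hx⟩, hxY, hne⟩
  have htriv : ∀ g : F2, (∀ x : SF F, x.1 ∈ Y → lineHom hS a c hc x g = 1) → g = 1 := by
    intro g hg
    by_contra hne
    obtain ⟨x, hx, h1⟩ := hYD' g hne
    rw [hg x hx] at h1
    exact h1 rfl
  -- proper closed invariant subsets
  have hproper : ∀ Y' ⊆ Y, Cl Y' → Inv Y' → Y' ≠ Y → ∃ g : F2, g ≠ 1 ∧
      ∀ x : SF F, x.1 ∈ Y' → lineHom hS a c hc x g = 1 := by
    intro Y' h1 h2 h3 h4
    by_contra hcon
    push Not at hcon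
    refine h4 (hYm Y' h1 h2 h3 ?_)
    rintro ⟨g, hg⟩
    by_contra hemp
    obtain ⟨x, hx, hne⟩ := hcon g hg
    exact hne (line_eq_one F hS a c hc (h1.trans hYF) h3 g hemp x hx)
  -- elements with barriers
  have hfin : ∀ (g : F2) (l R : ℕ), g ≠ 1 → g.norm ≤ l → R = l * r → ∀ G : ℕ,
      ¬ ∀ x : SF F, x.1 ∈ Y → ∃ k : ℤ, |k| ≤ (G : ℤ) ∧ ∀ p : ℤ, |p| ≤ (R : ℤ) →
        lineHom hS a c hc (shS hS k x) g p = p := by
    intro g l R hg hgl hR G hG
    obtain ⟨M, hM, h1⟩ := finite_order F hS a c hc r κ hper R l hR g hgl hr hκ hYF hYi G hG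
    exact JA.torsion_free g hg M hM.ne' (htriv _ h1)
  -- `Y` is a subshift
  obtain ⟨F', hF'⟩ : ∃ F' : Set (List A), SF F' = Y := ⟨_, hcls A inferInstance Y hYc hYi⟩
  -- irreducibility
  have hirr : Irred Y := by
    intro Y₁ Y₂ c1 i1 c2 i2 hU
    by_contra hcon
    push Not at hcon
    obtain ⟨g₁, hg₁, ht₁⟩ := hproper Y₁ (hU ▸ Set.subset_union_left) c1 i1 hcon.1
    obtain ⟨g₂, hg₂, ht₂⟩ := hproper Y₂ (hU ▸ Set.subset_union_right) c2 i2 hcon.2
    obtain ⟨p, q, hpq⟩ := JA.twist g₁ g₂ hg₁ hg₂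
    apply hpq
    apply htriv
    intro x hx
    rw [hU] at hx
    rcases hx with hx | hx
    · simp only [map_mul, map_inv, ht₁ x hx]
      group
    · simp only [map_mul, map_inv, ht₂ x hx]
      group
  -- minimal subsystems are dense
  have hdense : DenseMin Y := by
    intro Y' c' i' hM'
    by_contra hnot
    obtain ⟨g, hg, ht⟩ := hproper (Y ∩ Y') Set.inter_subset_left
      (by
        letI : TopologicalSpace A := ⊥
        haveI : DiscreteTopology A := ⟨rfl⟩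
        have h1 : IsClosed Y := hYc
        have h2 : IsClosed Y' := c'
        exact h1.inter h2)
      (fun k x hx => ⟨hYi k x hx.1, i' k x hx.2⟩)
      (fun h => hnot (h ▸ Set.inter_subset_right))
    obtain ⟨R, hR⟩ : ∃ R : ℕ, R = g.norm * r := ⟨_, rfl⟩
    obtain ⟨Q, hQ⟩ : ∃ Q : ℕ, Q = 2 * R + κ := ⟨_, rfl⟩
    have : Fintype A := Fintype.ofFinite A
    let W : Finset (Fin (2 * Q + 1) → A) := Finset.univ.filter fun w =>
      ∀ z : SF F, At w z.1 (-(Q : ℤ)) → ∀ p : ℤ, |p| ≤ (R : ℤ) → lineHom hS a c hc z g p = p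
    have hW : Hits F' (2 * Q + 1) W := by
      intro x hx
      obtain ⟨M, hM, hMx⟩ := hmin A inferInstance F' x hx
      rw [isMin_iff, hF'] at hM
      obtain ⟨y, hy⟩ := hM.1.1.1
      obtain ⟨j, hj⟩ := hMx y hy (-(Q : ℤ)) (2 * Q + 1)
      refine ⟨fun i => y (-(Q : ℤ) + ((i : ℕ) : ℤ)), ?_, j, fun i => hj i i.2⟩
      rw [Finset.mem_filter]
      refine ⟨Finset.mem_univ _, fun z hz p hp => ?_⟩
      have hyF : y ∈ SF F := hYF (hM.2 hy)
      have h1 : lineHom hS a c hc ⟨y, hyF⟩ g = 1 :=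
        ht ⟨y, hyF⟩ ⟨hM.2 hy, hM' M hM.2 hM.1 hy⟩
      have h2 : lineHom hS a c hc z g p = lineHom hS a c hc ⟨y, hyF⟩ g p := by
        apply line_local hS a c hc r κ hr hκ _ _ g.norm g le_rfl p
        intro i hi
        have hi2 : |i| ≤ (Q : ℤ) := by
          have h5 : |i| ≤ |i - p| + |p| := by
            calc |i| = |(i - p) + p| := by ring_nf
              _ ≤ _ := abs_add_le _ _
          have h6 : (R : ℤ) = (g.norm : ℤ) * r := by rw [hR]; push_cast; ring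
          have h7 : (Q : ℤ) = 2 * R + κ := by rw [hQ]; push_cast; ring
          rw [h7]
          linarith
        rw [abs_le] at hi2
        have h3 := hz ⟨(i + Q).toNat, by omega⟩
        have h4 : (((i + Q).toNat : ℕ) : ℤ) = i + Q := by omega
        simp only [h4] at h3
        have e1 : -(Q : ℤ) + (i + Q) = i := by ring
        rw [e1] at h3
        exact h3
      rw [h2, h1]
      rfl
    obtain ⟨G, hG⟩ := hgap A inferInstance F' _ W hW
    refine hfin g g.norm R hg le_rfl hR (G + Q) ?_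
    intro x hx
    obtain ⟨w, hw, k, hk, hat⟩ := hG x.1 (hF' ▸ hx)
    refine ⟨k + Q, ?_, ?_⟩
    · push_cast
      refine (abs_add_le _ _).trans ?_
      have : |(Q : ℤ)| = Q := abs_of_nonneg (Int.natCast_nonneg Q)
      rw [this]
      linarith
    · refine (Finset.mem_filter.1 hw).2 (shS hS (k + Q) x) ?_
      intro i
      have h1 := hat i
      show x.1 (-(Q : ℤ) + ((i : ℕ) : ℤ) + (k + Q)) = w i
      rw [← h1]
      congr 1
      ring
  -- few words
  have hfew := H Y hYF hYc hYi hirr hdense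
  have hfew' : ∀ ε : ℝ, 0 < ε → ∀ n₀ : ℕ, ∃ n ≥ n₀, ∃ W : Finset (Fin n → A), Hits F' n W ∧
      Real.log W.card ≤ ε * Real.sqrt n := by
    intro ε hε n₀
    obtain ⟨n, hn, W, hW, hl⟩ := hfew ε hε n₀
    refine ⟨n, hn, W, hits_of_meetsMin hmin F' n W ?_, hl⟩
    intro M hM
    rw [isMin_iff, hF'] at hM
    exact hW M hM.2 hM.1
  obtain ⟨l₀, hl₀⟩ := core r (1 / 96) (by norm_num)
  obtain ⟨l, α, ⟨hα, hlaw⟩, hlt⟩ := JG4.iterate_law (seq F') (seq_mono F') (seq_log F' hfew')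
    (fun l α => 0 ≤ α ∧ HasLaw (univAct r) l α)
    (fun l α hα hl => ⟨by positivity, JB.law_step _ JA.twist l α hα hl.2⟩) l₀
    ⟨by norm_num, hl₀⟩ r κ
  obtain ⟨R, hR⟩ : ∃ R, R = l * r := ⟨_, rfl⟩
  obtain ⟨Q, hQ⟩ : ∃ Q, Q = 2 * R + κ := ⟨_, rfl⟩
  obtain ⟨W, hW, hWc⟩ := tau_spec F' (2 * Q + 1)
  have hN : ((W.card * (2 * R + 1) : ℕ) : ℝ) * α < 1 := by
    refine lt_of_le_of_lt (mul_le_mul_of_nonneg_right ?_ hα) hlt
    have h1 : W.card * (2 * R + 1) ≤ seq F' (2 * (l * r + κ) + 1) := by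
      rw [hWc, seq, ← hR]
      exact Nat.mul_le_mul (tau_mono F' (by omega)) (by omega)
    exact_mod_cast h1
  obtain ⟨x₀, -, -⟩ := hYD' (FreeGroup.of true) (FreeGroup.of_ne_one true)
  choose y hy using exists_rep F Q x₀
  obtain ⟨g, hg1, hgl, hfix⟩ := exists_fix_lines r W
    (fun w => (⟨lineHom hS a c hc (y w), lineHom_disp hS a c hc r hr (y w)⟩ : LA r))
    l α hα hlaw R hN
  obtain ⟨G, hG⟩ := hgap A inferInstance F' _ W hW
  refine hfin g l R hg1 hgl hR (G + Q) ?_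
  intro x hx
  obtain ⟨w, hw, k, hk, hat⟩ := hG x.1 (hF' ▸ hx)
  refine ⟨k + Q, ?_, ?_⟩
  · push_cast
    refine (abs_add_le _ _).trans ?_
    have : |(Q : ℤ)| = Q := abs_of_nonneg (Int.natCast_nonneg Q)
    rw [this]
    linarith
  · intro p hp
    have h1 := fix_near F hS a c hc r κ hr hκ l R Q hR hQ g hgl w (y w)
      (hy w ⟨x.1, x.2, k, hat⟩) (hfix w hw) x k hat p hp
    rw [lineHom_shS]
    have e : p + (k + (Q : ℤ)) = k + Q + p := by ring
    rw [e, h1]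
    ring

end Pool.Agent.E8helper92.FS
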